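import Mathlib
import Pool.Agent.Helper77.Voj.Main

/-!
# Vojta's inequality for quadratic points of the projective line: the exceptions are rare

`X = P^1` over the rational numbers, `D` an arbitrary reduced effective divisor, `S` an arbitrary
finite set of places containing the infinite one, `r = 2`.

The definitions used in the statement are in `Pool/Agent/Helper77/Voj/Defs.lean`:
`pnt`, `weil`, `lamD`, `dQ`; the height is the Mathlib height `NumberField.absLogHeight₁`.
-/

set_option autoImplicit false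

namespace Pool.Agent.Results.MP_71c16a_nt.QuadraticExceptions

open NumberField IntermediateField Polynomial Pool.Agent.Helper77.Voj

/-- monotonicity of the sum of the Weil functions -/
theorem lamD_mono {S : Finset ℕ} (hS : ∀ p ∈ S, p.Prime) (g g' : ℚ[X]) (q q' : ℕ) (x : AlgebraicClosure ℚ)
    (h1 : ∀ w : InfinitePlace ℚ⟮x⟯, weil q (w (pnt x)) (w (aeval (pnt x) g))
      ≤ weil q' (w (pnt x)) (w (aeval (pnt x) g')))
    (h2 : ∀ w : FinitePlace ℚ⟮x⟯, weil q (w (pnt x)) (w (aeval (pnt x) g))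
      ≤ weil q' (w (pnt x)) (w (aeval (pnt x) g'))) :
    lamD S g q x ≤ lamD S g' q' x := by
  unfold lamD
  apply div_le_div_of_nonneg_right _ (Nat.cast_nonneg _)
  rw [finsum_above S hS, finsum_above S hS]
  apply add_le_add
  · exact Finset.sum_le_sum fun w _ => mul_le_mul_of_nonneg_left (h1 w) (Nat.cast_nonneg _)
  · exact Finset.sum_le_sum fun p _ => Finset.sum_le_sum fun w _ => h2 w

theorem weil_mono {q q' : ℕ} (h : q ≤ q') (u v : ℝ) : weil q u v ≤ weil q' u v := by
  unfold weil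
  have h1 : 0 ≤ Real.log (max 1 u) := Real.log_nonneg (le_max_left _ _)
  have h2 : (q : ℝ) ≤ q' := by exact_mod_cast h
  have := mul_le_mul_of_nonneg_right h2 h1
  linarith

theorem weil_mul {q : ℕ} (h : q ≤ 1) {u v : ℝ} (hu : 0 < u) (hv : 0 < v) : weil q u v ≤ weil 2 u (v * u) := by
  unfold weil
  have h1 : 0 ≤ Real.log (max 1 u) := Real.log_nonneg (le_max_left _ _)
  have h2 : (q : ℝ) ≤ 1 := by exact_mod_cast h
  have h3 := mul_le_mul_of_nonneg_right h2 h1
  have h4 : Real.log u ≤ Real.log (max 1 u) := Real.log_le_log hu (le_max_right _ _)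
  rw [Real.log_mul hv.ne' hu.ne']
  push_cast
  linarith

/-- enlarging the divisor keeps the bad points bad -/
theorem bad_mono {S : Finset ℕ} {g g' : ℚ[X]} {q q' : ℕ} {ε ε' C₀ : ℝ} {x : AlgebraicClosure ℚ}
    (hε : ε' ≤ ε) (h0 : aeval x g = 0 → aeval x g' = 0)
    (hl : aeval x g' ≠ 0 → lamD S g q x ≤ lamD S g' q' x) (h : Bad S g q ε C₀ x) : Bad S g' q' ε' C₀ x := by
  by_cases hx : aeval x g' = 0
  · exact Or.inl hx
  · rcases h with h | h
    · exact absurd (h0 h) hx
    · right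
      push Not at h ⊢
      have h1 := hl hx
      have h2 : 0 ≤ absLogHeight₁ x := by
        rw [absLog_eq]
        exact div_nonneg (Height.zero_le_logHeight₁ _) (Nat.cast_nonneg _)
      have h3 := mul_le_mul_of_nonneg_right hε h2
      linarith

/-- For every `ε > 0` and every constant `C₀` the number of quadratic points `x` of height at most
`T` which lie on `D` or violate
`h_K(x) + ∑_{v ∈ S} λ_D(x, v) ≤ ε h(x) + d(x) + C₀`
is `O(exp (4 T / 3))`. -/
theorem result (S : Finset ℕ) (hS : ∀ p ∈ S, p.Prime) (g : ℚ[X]) (hg : Squarefree g) (q : ℕ)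
    (hq : g.natDegree ≤ q) (hq' : q ≤ g.natDegree + 1) (ε : ℝ) (hε : 0 < ε) (C₀ : ℝ) :
    ∃ K : ℝ, ∀ T : ℝ, 0 ≤ T →
      {x : AlgebraicClosure ℚ | Module.finrank ℚ ℚ⟮x⟯ = 2 ∧ absLogHeight₁ x ≤ T ∧
        (aeval x g = 0 ∨
          ¬ (-2 * absLogHeight₁ x + lamD S g q x ≤ ε * absLogHeight₁ x + dQ x + C₀))}.Finite ∧
      ({x : AlgebraicClosure ℚ | Module.finrank ℚ ℚ⟮x⟯ = 2 ∧ absLogHeight₁ x ≤ T ∧
        (aeval x g = 0 ∨
          ¬ (-2 * absLogHeight₁ x + lamD S g q x ≤ ε * absLogHeight₁ x + dQ x + C₀))}.ncard : ℝ)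
        ≤ K * Real.exp (4 / 3 * T) := by
  have hε' : 0 < min ε 1 := lt_min hε one_pos
  have hε1 : min ε 1 ≤ 1 := min_le_right _ _
  -- an enlarged divisor
  obtain ⟨g', hg', hgd', h0, hl⟩ : ∃ g' : ℚ[X], Squarefree g' ∧ 1 ≤ g'.natDegree ∧
      (∀ x : AlgebraicClosure ℚ, aeval x g = 0 → aeval x g' = 0) ∧
      (∀ x : AlgebraicClosure ℚ, aeval x g' ≠ 0 → lamD S g q x ≤ lamD S g' (g'.natDegree + 1) x) := by
    by_cases hd : 1 ≤ g.natDegree
    · refine ⟨g, hg, hd, fun x h => h, fun x _ => ?_⟩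
      exact lamD_mono hS _ _ _ _ _ (fun w => weil_mono hq' _ _) (fun w => weil_mono hq' _ _)
    · have hd0 : g.natDegree = 0 := by omega
      obtain ⟨c, hc⟩ := natDegree_eq_zero.mp hd0
      have hc0 : c ≠ 0 := by
        rintro rfl
        rw [C_0] at hc
        exact hg.ne_zero hc.symm
      have hu : IsUnit (C c) := isUnit_C.mpr (isUnit_iff_ne_zero.mpr hc0)
      have hnd : (C c * X : ℚ[X]).natDegree = 1 := natDegree_C_mul_X c hc0
      refine ⟨C c * X, ?_, hnd.ge, ?_, ?_⟩
      · exact ((irreducible_isUnit_mul hu).mpr irreducible_X).squarefree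
      · intro x h
        rw [← hc] at h
        rw [map_mul, h, zero_mul]
      · intro x hx
        have hx0 : x ≠ 0 := by
          rintro rfl
          apply hx
          simp
        have hξ0 : pnt x ≠ 0 := by
          intro e
          apply hx0
          have := congrArg (algebraMap ℚ⟮x⟯ (AlgebraicClosure ℚ)) e
          rw [map_zero] at this
          exact this
        have hcξ : aeval (pnt x) (C c : ℚ[X]) ≠ 0 := by
          rw [aeval_C]
          exact fun h => hc0 ((map_eq_zero _).mp h)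
        have hq1 : q ≤ 1 := by omega
        rw [hnd, ← hc]
        refine lamD_mono hS _ _ _ _ _ (fun w => ?_) (fun w => ?_)
        · have e : aeval (pnt x) (C c * X : ℚ[X]) = aeval (pnt x) (C c : ℚ[X]) * pnt x := by
            rw [map_mul, aeval_X]
          rw [e, map_mul]
          exact weil_mul hq1 (InfinitePlace.pos_iff.mpr hξ0) (InfinitePlace.pos_iff.mpr hcξ)
        · have e : aeval (pnt x) (C c * X : ℚ[X]) = aeval (pnt x) (C c : ℚ[X]) * pnt x := by
            rw [map_mul, aeval_X]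
          rw [e, map_mul]
          exact weil_mul hq1 (FinitePlace.pos_iff.mpr hξ0) (FinitePlace.pos_iff.mpr hcξ)
  obtain ⟨K, hK⟩ := main_aux hS g' hg' hgd' hε' hε1 C₀
  refine ⟨K, fun T hT => ?_⟩
  obtain ⟨hfin, hcard⟩ := hK T hT
  have hsub : {x : AlgebraicClosure ℚ | Module.finrank ℚ ℚ⟮x⟯ = 2 ∧ absLogHeight₁ x ≤ T ∧
        (aeval x g = 0 ∨
          ¬ (-2 * absLogHeight₁ x + lamD S g q x ≤ ε * absLogHeight₁ x + dQ x + C₀))}
      ⊆ {x : AlgebraicClosure ℚ | Module.finrank ℚ ℚ⟮x⟯ = 2 ∧ absLogHeight₁ x ≤ T ∧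
        Bad S g' (g'.natDegree + 1) (min ε 1) C₀ x} := by
    rintro x ⟨h1, h2, h3⟩
    exact ⟨h1, h2, bad_mono (min_le_left _ _) (h0 x) (hl x) h3⟩
  refine ⟨hfin.subset hsub, ?_⟩
  refine le_trans ?_ hcard
  exact_mod_cast Set.ncard_le_ncard hsub hfin

end Pool.Agent.Results.MP_71c16a_nt.QuadraticExceptions
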